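import Mathlib

namespace Pool.Agent.Lib.MP_acc8c3_co

open Finset

/-- Row `i` (of `n+1` rows) omits column `c` (of `n+2` columns). -/
def Om (n : ℕ) (i : Fin (n+1)) (c : Fin (n+2)) : Prop :=
  (c : ℕ) = i ∨ ((i : ℕ) = n ∧ (c : ℕ) = n + 1)

instance (n : ℕ) (i : Fin (n+1)) (c : Fin (n+2)) : Decidable (Om n i c) := by
  unfold Om; infer_instance

lemma om_col (n : ℕ) (c : Fin (n+2)) (i j : Fin (n+1)) (hi : Om n i c) (hj : Om n j c) :
    i = j := by
  unfold Om at hi hj
  have := i.2; have := j.2
  apply Fin.ext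
  omega

lemma om_exists (n : ℕ) (c : Fin (n+2)) : ∃ i, Om n i c := by
  by_cases h : (c : ℕ) < n + 1
  · exact ⟨⟨c, h⟩, Or.inl rfl⟩
  · exact ⟨⟨n, by omega⟩, Or.inr ⟨rfl, by have := c.2; omega⟩⟩

lemma om_row (n : ℕ) (i : Fin (n+1)) : (univ.filter (fun c => Om n i c)).card ≤ 2 := by
  have : univ.filter (fun c => Om n i c) ⊆ {⟨i, by have := i.2; omega⟩, ⟨n+1, by omega⟩} := by
    intro c hc
    simp only [mem_filter, mem_univ, true_and, Om] at hc
    simp only [mem_insert, mem_singleton, Fin.ext_iff]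
    omega
  exact (card_le_card this).trans card_le_two

/-- number of omitted cells in `I × J` -/
lemma om_count (n : ℕ) (I : Finset (Fin (n+1))) (J : Finset (Fin (n+2))) :
    ((I ×ˢ J).filter (fun x => Om n x.1 x.2)).card ≤ J.card ∧
    ((I ×ˢ J).filter (fun x => Om n x.1 x.2)).card ≤ 2 * I.card := by
  constructor
  · apply card_le_card_of_injOn (fun x => x.2)
    · intro x hx
      simp only [coe_filter, mem_product, Set.mem_ofPred_eq] at hx
      exact hx.1.2
    · intro x hx y hy hxy
      simp only [coe_filter, mem_product, Set.mem_ofPred_eq] at hx hy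
      have h2 : x.2 = y.2 := hxy
      have h1 : x.1 = y.1 := om_col n x.2 _ _ hx.2 (h2 ▸ hy.2)
      exact Prod.ext h1 h2
  · apply card_le_mul_card_image_of_maps_to (f := fun x : Fin (n+1) × Fin (n+2) => x.1) (t := I)
    · intro x hx
      simp only [mem_filter, mem_product] at hx
      exact hx.1.1
    · intro i _
      refine le_trans ?_ (om_row n i)
      apply card_le_card_of_injOn (fun x => x.2)
      · intro x hx
        simp only [coe_filter, mem_filter, mem_product, Set.mem_ofPred_eq] at hx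
        simp only [coe_filter, mem_univ, true_and, Set.mem_ofPred_eq]
        rw [← hx.2]; exact hx.1.2
      · intro x hx y hy hxy
        simp only [coe_filter, mem_filter, mem_product, Set.mem_ofPred_eq] at hx hy
        exact Prod.ext (hx.2.trans hy.2.symm) hxy

/-- Hall violator form. -/
lemma hall (n : ℕ) (U : Finset (Fin (n+1) × Fin (n+2)))
    (h : ∀ (I : Finset (Fin (n+1))) (J : Finset (Fin (n+2))), n + 3 ≤ I.card + J.card →
      ∃ i ∈ I, ∃ c ∈ J, ¬ Om n i c ∧ (i, c) ∉ U) :
    ∃ f : Fin (n+1) → Fin (n+2), Function.Injective f ∧ ∀ i, ¬ Om n i (f i) ∧ (i, f i) ∉ U := by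
  classical
  have := (Fintype.all_card_le_filter_rel_iff_exists_injective
    (fun (i : Fin (n+1)) (c : Fin (n+2)) => ¬ Om n i c ∧ (i, c) ∉ U)).1 ?_
  · exact this
  intro I
  by_contra hlt
  set N := univ.filter (fun c : Fin (n+2) => ∃ i ∈ I, ¬ Om n i c ∧ (i, c) ∉ U) with hN
  have hlt : N.card < I.card := by
    have h2 := Nat.lt_of_not_le hlt
    convert h2
  have hc : Nᶜ.card = n + 2 - N.card := by rw [card_compl, Fintype.card_fin]
  have hle : N.card ≤ n + 2 := by simpa using card_le_univ N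
  obtain ⟨i, hi, c, hc', h1, h2⟩ := h I Nᶜ (by omega)
  rw [mem_compl] at hc'
  exact hc' (by rw [hN]; simp only [mem_filter, mem_univ, true_and]; exact ⟨i, hi, h1, h2⟩)

lemma arith (n a b o : ℕ) (ha : a ≤ n + 1) (hb : b ≤ n + 2) (hab : n + 3 ≤ a + b)
    (h1 : o ≤ b) (h2 : o ≤ 2 * a) : 2 * n + o + a ≤ a * b + n + 1 := by
  rcases Nat.lt_or_ge a 2 with h | h
  · have : a = 1 := by omega
    subst this
    omega
  · obtain ⟨u, rfl⟩ : ∃ u, a = u + 2 := ⟨a - 2, by omega⟩
    obtain ⟨v, rfl⟩ : ∃ v, b = v + 2 := ⟨b - 2, by omega⟩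
    nlinarith [Nat.zero_le (u * v)]

/-- Main counting lemma: a small set of cells meeting every row misses a transversal. -/
lemma small (n : ℕ) (U : Finset (Fin (n+1) × Fin (n+2))) (hU : U.card < 2 * n)
    (hrow : ∀ i, ∃ c, ¬ Om n i c ∧ (i, c) ∈ U) :
    ∃ f : Fin (n+1) → Fin (n+2), Function.Injective f ∧ ∀ i, ¬ Om n i (f i) ∧ (i, f i) ∉ U := by
  classical
  apply hall
  intro I J hIJ
  by_contra hcon
  push Not at hcon
  choose g hg using hrow
  set P := (I ×ˢ J).filter (fun x => ¬ Om n x.1 x.2) with hP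
  set Q := Iᶜ.image (fun i => (i, g i)) with hQ
  have hPU : P ⊆ U := by
    intro x hx
    simp only [hP, mem_filter, mem_product] at hx
    exact hcon x.1 hx.1.1 x.2 hx.1.2 hx.2
  have hQU : Q ⊆ U := by
    intro x hx
    simp only [hQ, mem_image] at hx
    obtain ⟨i, _, rfl⟩ := hx
    exact (hg i).2
  have hdis : Disjoint P Q := by
    rw [disjoint_left]
    intro x hx hx'
    simp only [hP, mem_filter, mem_product] at hx
    simp only [hQ, mem_image, mem_compl] at hx'
    obtain ⟨i, hi, rfl⟩ := hx'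
    exact hi hx.1.1
  have hcard : P.card + Q.card ≤ U.card := by
    rw [← card_union_of_disjoint hdis]
    exact card_le_card (union_subset hPU hQU)
  have hQc : Q.card = n + 1 - I.card := by
    rw [hQ, card_image_of_injective _ (fun i j hij => (Prod.ext_iff.1 hij).1), card_compl,
      Fintype.card_fin]
  have hI : I.card ≤ n + 1 := by simpa using card_le_univ I
  have hJ : J.card ≤ n + 2 := by simpa using card_le_univ J
  have hsplit := card_filter_add_card_filter_not (s := I ×ˢ J) (fun x => Om n x.1 x.2)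
  rw [card_product] at hsplit
  obtain ⟨h1, h2⟩ := om_count n I J
  have := arith n I.card J.card _ hI hJ hIJ h1 h2
  rw [← hP] at hsplit
  omega

/-- a transversal avoiding a given column -/
lemma avoid (n : ℕ) (hn : 2 ≤ n) (d : Fin (n+2)) :
    ∃ f : Fin (n+1) → Fin (n+2), Function.Injective f ∧ ∀ i, ¬ Om n i (f i) ∧ f i ≠ d := by
  classical
  suffices hh : ∃ f : Fin (n+1) → Fin (n+2), Function.Injective f ∧
      ∀ i, ¬ Om n i (f i) ∧ (i, f i) ∉ (univ ×ˢ {d} : Finset (Fin (n+1) × Fin (n+2))) by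
    obtain ⟨f, hf, h⟩ := hh
    refine ⟨f, hf, fun i => ⟨(h i).1, fun hd => (h i).2 ?_⟩⟩
    simp [hd]
  apply hall
  intro I J hIJ
  by_contra hcon
  push Not at hcon
  have hsub : (I ×ˢ J.erase d).filter (fun x => Om n x.1 x.2) = I ×ˢ J.erase d := by
    apply filter_true_of_mem
    intro x hx
    simp only [mem_product, mem_erase] at hx
    by_contra hom
    have := hcon x.1 hx.1 x.2 hx.2.2 hom
    simp only [mem_product, mem_univ, mem_singleton, true_and] at this
    exact hx.2.1 this
  obtain ⟨h1, h2⟩ := om_count n I (J.erase d)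
  rw [hsub, card_product] at h1 h2
  have hI : I.card ≤ n + 1 := by simpa using card_le_univ I
  have hJ : J.card ≤ n + 2 := by simpa using card_le_univ J
  have hJ' : J.card - 1 ≤ (J.erase d).card := pred_card_le_card_erase
  have ha : I.card = 1 := by
    have hpos : 0 < (J.erase d).card := by omega
    have : I.card ≤ 1 := by
      by_contra hh
      have : 2 * (J.erase d).card ≤ I.card * (J.erase d).card :=
        Nat.mul_le_mul_right _ (by omega)
      omega
    omega
  rw [ha] at h2
  omega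

end Pool.Agent.Lib.MP_acc8c3_co
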