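import Mathlib
import Pool.Agent.Lib.MP_acc8c3_co.Core

namespace Pool.Agent.Lib.MP_acc8c3_co

open Finset SimpleGraph

/-- Blow-up: from cross-intersecting families of words to a spanning colouring. -/
theorem blowup (k m : ℕ) [NeZero k] (S : Type) [Finite S] (A B : Set (Fin k → S))
    (hA : A.Nonempty) (hB : B.Nonempty)
    (hAB : ∀ a ∈ A, ∀ b ∈ B, ∃ c, a c = b c)
    (hsA : ∀ a ∈ A, ∀ c, ∃ b ∈ B, a c = b c)
    (hsB : ∀ b ∈ B, ∀ c, ∃ a ∈ A, a c = b c)
    (hT : ∀ T : Finset (Fin k × S), (∀ a ∈ A, ∃ c, (c, a c) ∈ T) → (∀ b ∈ B, ∃ c, (c, b c) ∈ T) →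
      m ≤ T.card) :
    ∃ (V₁ V₂ : Type) (_ : Finite V₁) (_ : Finite V₂) (_ : Nonempty V₁) (_ : Nonempty V₂)
      (χ : (completeBipartiteGraph V₁ V₂).EdgeLabeling (Fin k)),
      (∀ (v : V₁ ⊕ V₂) (i : Fin k), ∃ w, (χ.labelGraph i).Adj v w) ∧
      ∀ C : Finset (Σ i : Fin k, (χ.labelGraph i).ConnectedComponent),
        (∀ v : V₁ ⊕ V₂, ∃ K ∈ C, v ∈ K.2.supp) → m ≤ C.card := by
  classical
  choose g hg using hAB
  let col : A × Fin k → B × Fin k → Fin k := fun x y =>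
    if x.1.1 (x.2 + y.2) = y.1.1 (x.2 + y.2) then x.2 + y.2 else g x.1.1 x.1.2 y.1.1 y.1.2
  have hcol : ∀ (x : A × Fin k) (y : B × Fin k), x.1.1 (col x y) = y.1.1 (col x y) := by
    intro x y
    simp only [col]
    split_ifs with h
    · exact h
    · exact hg _ _ _ _
  let F : (A × Fin k) ⊕ (B × Fin k) → (A × Fin k) ⊕ (B × Fin k) → Fin k := fun x y =>
    match x, y with
    | .inl x, .inr y => col x y
    | .inr y, .inl x => col x y
    | _, _ => 0
  have hF : ∀ x y, F y x = F x y := by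
    intro x y
    cases x <;> cases y <;> rfl
  let χ : (completeBipartiteGraph (A × Fin k) (B × Fin k)).EdgeLabeling (Fin k) :=
    EdgeLabeling.mk (fun x y _ => F x y) (fun x y _ => hF x y)
  have hadj : ∀ i x y, (χ.labelGraph i).Adj x y ↔
      (completeBipartiteGraph (A × Fin k) (B × Fin k)).Adj x y ∧ F x y = i := by
    intro i x y
    rw [EdgeLabeling.labelGraph_adj]
    constructor
    · rintro ⟨H, h⟩
      exact ⟨H, h⟩
    · rintro ⟨H, h⟩
      exact ⟨H, h⟩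
  let w : (A × Fin k) ⊕ (B × Fin k) → Fin k → S := fun x =>
    match x with
    | .inl x => x.1.1
    | .inr y => y.1.1
  have hw : ∀ i x y, (χ.labelGraph i).Adj x y → w x i = w y i := by
    intro i x y h
    rw [hadj] at h
    obtain ⟨h1, h2⟩ := h
    cases x with
    | inl x => cases y with
      | inl y => simp at h1
      | inr y => subst h2; exact hcol x y
    | inr x => cases y with
      | inl y => subst h2; exact (hcol y x).symm
      | inr y => simp at h1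
  have hw' : ∀ i x y, (χ.labelGraph i).Reachable x y → w x i = w y i := by
    intro i x y ⟨p⟩
    induction p with
    | nil => rfl
    | cons h _ ih => exact (hw i _ _ h).trans ih
  obtain ⟨a₀, ha₀⟩ := hA
  obtain ⟨b₀, hb₀⟩ := hB
  refine ⟨A × Fin k, B × Fin k, inferInstance, inferInstance, ⟨(⟨a₀, ha₀⟩, 0)⟩, ⟨(⟨b₀, hb₀⟩, 0)⟩,
    χ, ?_, ?_⟩
  · intro v i
    cases v with
    | inl x =>
      obtain ⟨b, hb, hab⟩ := hsA x.1.1 x.1.2 i
      refine ⟨.inr (⟨b, hb⟩, i - x.2), (hadj _ _ _).2 ⟨by simp, ?_⟩⟩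
      simp [F, col, hab]
    | inr y =>
      obtain ⟨a, ha, hab⟩ := hsB y.1.1 y.1.2 i
      refine ⟨.inl (⟨a, ha⟩, i - y.2), (hadj _ _ _).2 ⟨by simp, ?_⟩⟩
      simp [F, col, hab]
  · intro C hC
    let φ : (Σ i : Fin k, (χ.labelGraph i).ConnectedComponent) → Fin k × S := fun K =>
      (K.1, w K.2.out K.1)
    have key : ∀ v, ∃ c, (c, w v c) ∈ C.image φ := by
      intro v
      obtain ⟨K, hK, hv⟩ := hC v
      refine ⟨K.1, mem_image.2 ⟨K, hK, ?_⟩⟩
      simp only [φ, Prod.mk.injEq, true_and]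
      apply hw'
      rw [ConnectedComponent.mem_supp_iff] at hv
      rw [← ConnectedComponent.eq, hv]
      exact K.2.out_eq
    refine le_trans (hT (C.image φ) ?_ ?_) card_image_le
    · intro a ha
      exact key (.inl (⟨a, ha⟩, 0))
    · intro b hb
      exact key (.inr (⟨b, hb⟩, 0))

theorem latin (k : ℕ) [NeZero k] :
    ∃ (V₁ V₂ : Type) (_ : Finite V₁) (_ : Finite V₂) (_ : Nonempty V₁) (_ : Nonempty V₂)
      (χ : (completeBipartiteGraph V₁ V₂).EdgeLabeling (Fin k)),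
      (∀ (v : V₁ ⊕ V₂) (i : Fin k), ∃ w, (χ.labelGraph i).Adj v w) ∧
      ∀ C : Finset (Σ i : Fin k, (χ.labelGraph i).ConnectedComponent),
        (∀ v : V₁ ⊕ V₂, ∃ K ∈ C, v ∈ K.2.supp) → k ≤ C.card := by
  classical
  apply blowup k k (Fin k) (Set.range fun x _ => x) (Set.range fun s c => c + s)
    (Set.range_nonempty _) (Set.range_nonempty _)
  · rintro _ ⟨x, rfl⟩ _ ⟨s, rfl⟩
    exact ⟨x - s, by simp⟩
  · rintro _ ⟨x, rfl⟩ c
    exact ⟨_, ⟨x - c, rfl⟩, by simp⟩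
  · rintro _ ⟨s, rfl⟩ c
    exact ⟨_, ⟨c + s, rfl⟩, rfl⟩
  · intro T hT _
    have h1 : (univ : Finset (Fin k)) ⊆ T.image Prod.snd := by
      intro x _
      obtain ⟨c, hc⟩ := hT _ ⟨x, rfl⟩
      exact mem_image.2 ⟨_, hc, rfl⟩
    have := (card_le_card h1).trans card_image_le
    simpa using this

theorem big (n : ℕ) (hn : 2 ≤ n) :
    ∃ (V₁ V₂ : Type) (_ : Finite V₁) (_ : Finite V₂) (_ : Nonempty V₁) (_ : Nonempty V₂)
      (χ : (completeBipartiteGraph V₁ V₂).EdgeLabeling (Fin (n+2))),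
      (∀ (v : V₁ ⊕ V₂) (i : Fin (n+2)), ∃ w, (χ.labelGraph i).Adj v w) ∧
      ∀ C : Finset (Σ i : Fin (n+2), (χ.labelGraph i).ConnectedComponent),
        (∀ v : V₁ ⊕ V₂, ∃ K ∈ C, v ∈ K.2.supp) → 2 * n ≤ C.card := by
  classical
  -- a word of `B` built from a transversal `f` and a padding `p`
  have mkB : ∀ (f : Fin (n+1) → Fin (n+2)), Function.Injective f → (∀ i, ¬ Om n i (f i)) →
      ∀ p : Fin (n+2) → Fin (n+1) ⊕ Fin (2*n), ∃ b : Fin (n+2) → Fin (n+1) ⊕ Fin (2*n),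
        (∀ i, ∃ c, ¬ Om n i c ∧ b c = .inl i) ∧
        ∀ c, (∃ i, f i = c ∧ b c = .inl i) ∨ ((∀ i, f i ≠ c) ∧ b c = p c) := by
    intro f hf hom p
    refine ⟨fun c => if h : ∃ i, f i = c then .inl h.choose else p c, ?_, ?_⟩
    · intro i
      refine ⟨f i, hom i, ?_⟩
      have h : ∃ j, f j = f i := ⟨i, rfl⟩
      simp only [dif_pos h]
      rw [hf h.choose_spec]
    · intro c
      by_cases h : ∃ i, f i = c
      · left
        exact ⟨h.choose, h.choose_spec, by simp only [dif_pos h]⟩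
      · right
        exact ⟨fun i hi => h ⟨i, hi⟩, by simp only [dif_neg h]⟩
  apply blowup (n+2) (2*n) (Fin (n+1) ⊕ Fin (2*n))
    {a | ∃ i, ∀ c, ¬ Om n i c → a c = .inl i} {b | ∀ i, ∃ c, ¬ Om n i c ∧ b c = .inl i}
  · exact ⟨fun _ => .inl 0, 0, fun _ _ => rfl⟩
  · obtain ⟨f, hf, h⟩ := avoid n hn 0
    obtain ⟨b, hb, _⟩ := mkB f hf (fun i => (h i).1) (fun _ => .inl 0)
    exact ⟨b, hb⟩
  · rintro a ⟨i, hi⟩ b hb
    obtain ⟨c, h1, h2⟩ := hb i
    exact ⟨c, (hi c h1).trans h2.symm⟩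
  · intro a _ c
    obtain ⟨f, hf, h⟩ := avoid n hn c
    obtain ⟨b, hb, hb'⟩ := mkB f hf (fun i => (h i).1) a
    refine ⟨b, hb, ?_⟩
    rcases hb' c with ⟨i, hi, _⟩ | ⟨_, h2⟩
    · exact absurd hi (h i).2
    · exact h2.symm
  · intro b _ c
    obtain ⟨i, hi⟩ := om_exists n c
    refine ⟨fun d => if Om n i d then b d else .inl i, ⟨i, fun d hd => if_neg hd⟩, if_pos hi⟩
  · intro T hTA hTB
    by_contra hlt
    have hlt : T.card < 2 * n := Nat.lt_of_not_le hlt
    have hp : ∀ c : Fin (n+2), ∃ d : Fin (2*n), (c, Sum.inr d) ∉ T := by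
      intro c
      by_contra hcon
      push Not at hcon
      have h1 : (univ : Finset (Fin (2*n))).image (fun d => (c, (Sum.inr d : Fin (n+1) ⊕ _))) ⊆ T := by
        intro x hx
        obtain ⟨d, _, rfl⟩ := mem_image.1 hx
        exact hcon d
      have h2 := card_le_card h1
      rw [card_image_of_injective _ (fun d e h => by simpa using h)] at h2
      simp at h2
      omega
    choose p hp using hp
    let U : Finset (Fin (n+1) × Fin (n+2)) := univ.filter (fun x => (x.2, Sum.inl x.1) ∈ T)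
    have hU : U.card ≤ T.card := by
      apply card_le_card_of_injOn (fun x => (x.2, Sum.inl x.1))
      · intro x hx
        simpa [U] using hx
      · intro x _ y _ hxy
        simp only [Prod.mk.injEq, Sum.inl.injEq] at hxy
        exact Prod.ext hxy.2 hxy.1
    obtain ⟨f, hf, h⟩ := small n U (by omega) (by
      intro i
      obtain ⟨c, hc⟩ := hTA (fun d => if Om n i d then .inr (p d) else .inl i)
        ⟨i, fun d hd => if_neg hd⟩
      by_cases hom : Om n i c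
      · simp only [if_pos hom] at hc
        exact absurd hc (hp c)
      · simp only [if_neg hom] at hc
        exact ⟨c, hom, by simpa [U] using hc⟩)
    obtain ⟨b, hb, hb'⟩ := mkB f hf (fun i => (h i).1) (fun c => .inr (p c))
    obtain ⟨c, hc⟩ := hTB b hb
    rcases hb' c with ⟨i, hi, h2⟩ | ⟨_, h2⟩
    · rw [h2] at hc
      apply (h i).2
      rw [hi]
      simpa [U] using hc
    · rw [h2] at hc
      exact hp c hc

theorem main (k : ℕ) (hk : 0 < k) :
    ∃ (V₁ V₂ : Type) (_ : Finite V₁) (_ : Finite V₂) (_ : Nonempty V₁) (_ : Nonempty V₂)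
      (χ : (completeBipartiteGraph V₁ V₂).EdgeLabeling (Fin k)),
      (∀ (v : V₁ ⊕ V₂) (i : Fin k), ∃ w, (χ.labelGraph i).Adj v w) ∧
      ∀ C : Finset (Σ i : Fin k, (χ.labelGraph i).ConnectedComponent),
        (∀ v : V₁ ⊕ V₂, ∃ K ∈ C, v ∈ K.2.supp) → 2 * k ≤ C.card + 4 := by
  rcases Nat.lt_or_ge k 4 with h | h
  · have : NeZero k := ⟨by omega⟩
    obtain ⟨V₁, V₂, i1, i2, i3, i4, χ, h1, h2⟩ := latin k
    exact ⟨V₁, V₂, i1, i2, i3, i4, χ, h1, fun C hC => by have := h2 C hC; omega⟩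
  · obtain ⟨n, rfl⟩ : ∃ n, k = n + 2 := ⟨k - 2, by omega⟩
    obtain ⟨V₁, V₂, i1, i2, i3, i4, χ, h1, h2⟩ := big n (by omega)
    exact ⟨V₁, V₂, i1, i2, i3, i4, χ, h1, fun C hC => by have := h2 C hC; omega⟩

end Pool.Agent.Lib.MP_acc8c3_co
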